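import Mathlib

set_option autoImplicit false

namespace Pool.Agent.Results.MP_6b7ad2_lc.Gdelta

open Set Topology TopologicalSpace

/-- The local orbit `O(x,U,V)`: the points reachable from `x` by finitely many steps `a ↦ g • a`
with `g ∈ V`, all points of the path lying in `U`. -/
def LocOrb {G X : Type*} [Group G] [MulAction G X] (U : Set X) (V : Set G) (x : X) : Set X :=
  {y | Relation.ReflTransGen (fun a b => a ∈ U ∧ b ∈ U ∧ ∃ g ∈ V, g • a = b) x y}

/-- `x` is turbulent: for every open `U ∋ x` and every symmetric open neighbourhood `V` of `1`, the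
closure of the local orbit has nonempty interior. -/
def Turbulent (G : Type*) {X : Type*} [Group G] [TopologicalSpace G] [TopologicalSpace X]
    [MulAction G X] (x : X) : Prop :=
  ∀ U : Set X, IsOpen U → x ∈ U → ∀ V : Set G, IsOpen V → (1 : G) ∈ V → V⁻¹ = V →
    (interior (closure (LocOrb U V x))).Nonempty

section
variable {G X : Type*} [Group G] [MulAction G X] {U : Set X} {V : Set G}

lemma orb_sub {x : X} (hx : x ∈ U) : LocOrb U V x ⊆ U := by
  intro y hy
  induction hy with
  | refl => exact hx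
  | tail _ h _ => exact h.2.1

lemma orb_mono {U' : Set X} {V' : Set G} (h1 : U ⊆ U') (h2 : V ⊆ V') (x : X) :
    LocOrb U V x ⊆ LocOrb U' V' x := by
  intro y hy
  induction hy with
  | refl => exact Relation.ReflTransGen.refl
  | tail _ h ih =>
    obtain ⟨a, b, g, hg, e⟩ := h
    exact Relation.ReflTransGen.tail ih ⟨h1 a, h1 b, g, h2 hg, e⟩

lemma orb_symm (hV : V⁻¹ = V) {x y : X} (h : y ∈ LocOrb U V x) : x ∈ LocOrb U V y := by
  induction h with
  | refl => exact Relation.ReflTransGen.refl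
  | tail _ h ih =>
    obtain ⟨a, b, g, hg, e⟩ := h
    exact Relation.ReflTransGen.head ⟨b, a, g⁻¹, by rw [← hV]; simpa using hg, by rw [← e]; simp⟩ ih

variable [TopologicalSpace X] [ContinuousConstSMul G X]

lemma step (hU : IsOpen U) {x y : X} (hx : x ∈ U) (hy : y ∈ closure (LocOrb U V x)) {g : G}
    (hg : g ∈ V) (h : g • y ∈ U) : g • y ∈ closure (LocOrb U V x) := by
  have h1 : y ∈ closure ((fun z => g • z) ⁻¹' U ∩ LocOrb U V x) :=
    (hU.preimage (continuous_const_smul g)).inter_closure ⟨h, hy⟩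
  exact map_mem_closure (continuous_const_smul g) h1 fun z hz =>
    Relation.ReflTransGen.tail hz.2 ⟨orb_sub hx hz.2, hz.1, g, hg, rfl⟩

lemma orb_cl (hU : IsOpen U) {x y : X} (hx : x ∈ U) (hy : y ∈ closure (LocOrb U V x)) :
    LocOrb U V y ⊆ closure (LocOrb U V x) := by
  intro z hz
  induction hz with
  | refl => exact hy
  | tail _ h ih =>
    obtain ⟨_, b, g, hg, e⟩ := h
    rw [← e] at b ⊢
    exact step hU hx ih hg b

lemma mem_int (hU : IsOpen U) (hV : V⁻¹ = V) {x : X} (hx : x ∈ U)
    (h : (interior (closure (LocOrb U V x))).Nonempty) : x ∈ interior (closure (LocOrb U V x)) := by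
  obtain ⟨z, hz⟩ := h
  obtain ⟨y, hy1, hy2⟩ := mem_closure_iff.1 (interior_subset hz) _ isOpen_interior hz
  generalize hS : closure (LocOrb U V x) = S at hy1 ⊢
  have key : ∀ a, y ∈ LocOrb U V a → a ∈ interior S := by
    intro a ha
    induction ha using Relation.ReflTransGen.head_induction_on with
    | refl => exact hy1
    | head h _ ih =>
      obtain ⟨a, b, g, hg, e⟩ := h
      refine mem_interior.2 ⟨U ∩ (fun z => g • z) ⁻¹' interior S, fun w hw => ?_,
        hU.inter (isOpen_interior.preimage (continuous_const_smul g)), a, by rw [← e] at ih; exact ih⟩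
      have := step (V := V) hU hx (hS ▸ interior_subset hw.2) (g := g⁻¹) (by rw [← hV]; simpa using hg)
        (by simpa using hw.1)
      rw [hS] at this
      simpa using this
  exact key x hy2

lemma open_meet (hU : IsOpen U) {W : Set X} (hW : IsOpen W) :
    IsOpen {x | x ∈ U ∧ (W ∩ LocOrb U V x).Nonempty} := by
  rw [← subset_interior_iff_isOpen]
  rintro x ⟨hx, y, hy1, hy2⟩
  induction hy2 using Relation.ReflTransGen.head_induction_on with
  | refl =>
    exact mem_interior.2 ⟨U ∩ W, fun w hw => ⟨hw.1, w, hw.2, Relation.ReflTransGen.refl⟩,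
      hU.inter hW, hx, hy1⟩
  | head h _ ih =>
    obtain ⟨a, b, g, hg, e⟩ := h
    refine mem_interior.2 ⟨U ∩ (fun z => g • z) ⁻¹' interior _, fun w hw => ?_,
      hU.inter (isOpen_interior.preimage (continuous_const_smul g)), a, by rw [← e] at ih b; exact ih b⟩
    obtain ⟨h1, z, h2, h3⟩ := interior_subset hw.2
    exact ⟨hw.1, z, h2, Relation.ReflTransGen.head ⟨hw.1, h1, g, hg, rfl⟩ h3⟩

lemma gd_A [SecondCountableTopology X] (hU : IsOpen U) (W : Set X) :
    IsGδ {x | x ∈ U ∧ W ⊆ closure (LocOrb U V x)} := by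
  have : {x | x ∈ U ∧ W ⊆ closure (LocOrb U V x)} = U ∩ ⋂ W' ∈ {W' ∈ countableBasis X | (W' ∩ W).Nonempty},
      {x | x ∈ U ∧ (W' ∩ LocOrb U V x).Nonempty} := by
    ext x
    simp only [mem_ofPred_eq, mem_inter_iff, mem_iInter]
    refine and_congr_right fun hx => ⟨fun h W' ⟨h1, z, h2, h3⟩ => ⟨hx, ?_⟩, fun h z hz => ?_⟩
    · exact mem_closure_iff.1 (h h3) _ (isOpen_of_mem_countableBasis h1) h2
    · exact (isBasis_countableBasis X).mem_closure_iff.2 fun o ho hzo => (h o ⟨ho, z, hzo, hz⟩).2
  rw [this]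
  exact hU.isGδ.inter (IsGδ.biInter ((countable_countableBasis X).mono fun _ h => h.1) fun W' h =>
    (open_meet hU (isOpen_of_mem_countableBasis h.1)).isGδ)

lemma gd_T [SecondCountableTopology X] [PseudoMetrizableSpace X] (hU : IsOpen U) (hV : V⁻¹ = V) :
    IsGδ {x | x ∈ U ∧ x ∈ interior (closure (LocOrb U V x))} := by
  let B := {W ∈ countableBasis X | ∃ x ∈ U, W ⊆ closure (LocOrb U V x)}
  have : {x | x ∈ U ∧ x ∈ interior (closure (LocOrb U V x))} = (U ∩ ⋃₀ B) ∩
      ⋂ W ∈ B, ({x | x ∈ U ∧ W ⊆ closure (LocOrb U V x)} ∪ Wᶜ) := by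
    ext x
    simp only [mem_ofPred_eq, mem_inter_iff, mem_iInter, mem_sUnion, mem_union, mem_compl_iff]
    constructor
    · rintro ⟨hx, h⟩
      obtain ⟨W, h1, h2, h3⟩ := (isBasis_countableBasis X).exists_subset_of_mem_open h isOpen_interior
      refine ⟨⟨hx, W, ⟨h1, x, hx, h3.trans interior_subset⟩, h2⟩, fun W' ⟨h4, x', hx', h5⟩ => ?_⟩
      by_cases h6 : x ∈ W'
      · obtain ⟨y, hy1, hy2⟩ := mem_closure_iff.1 (h5 h6) _ isOpen_interior h
        refine Or.inl ⟨hx, h5.trans (closure_minimal (fun z hz => ?_) isClosed_closure)⟩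
        exact orb_cl hU hx (interior_subset hy1) (Relation.ReflTransGen.trans (orb_symm hV hy2) hz)
      · exact Or.inr h6
    · rintro ⟨⟨hx, W, h1, h2⟩, h⟩
      exact ⟨hx, mem_interior.2 ⟨W, ((h W h1).resolve_right (not_not.2 h2)).2,
        isOpen_of_mem_countableBasis h1.1, h2⟩⟩
  rw [this]
  exact (hU.inter (isOpen_sUnion fun W h => isOpen_of_mem_countableBasis h.1)).isGδ.inter
    (IsGδ.biInter ((countable_countableBasis X).mono fun _ h => h.1) fun W h =>
      (gd_A hU W).union (isOpen_of_mem_countableBasis h.1).isClosed_compl.isGδ)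

end

/-- The set of turbulent points of a Polish `G`-space is `G_δ`. -/
theorem result (G X : Type*) [Group G] [TopologicalSpace G] [IsTopologicalGroup G] [PolishSpace G]
    [TopologicalSpace X] [PolishSpace X] [MulAction G X] [ContinuousSMul G X] :
    IsGδ {x : X | Turbulent G x} := by
  obtain ⟨s, hs⟩ := (𝓝 (1 : G)).exists_antitone_basis
  let V : ℕ → Set G := fun n => interior (s n) ∩ (interior (s n))⁻¹
  have hV : ∀ n, (V n)⁻¹ = V n := fun n => by simp [V, inter_comm]
  have h1 : ∀ n, (1 : G) ∈ interior (s n) := fun n => mem_interior_iff_mem_nhds.2 (hs.mem n)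
  have : {x : X | Turbulent G x} = ⋂ U ∈ countableBasis X, ⋂ n,
      ({x | x ∈ U ∧ x ∈ interior (closure (LocOrb U (V n) x))} ∪ Uᶜ) := by
    ext x
    simp only [mem_ofPred_eq, mem_iInter, mem_union, mem_compl_iff]
    constructor
    · intro h U hU n
      by_cases hx : x ∈ U
      · have hU' := isOpen_of_mem_countableBasis hU
        exact Or.inl ⟨hx, mem_int hU' (hV n) hx (h U hU' hx (V n)
          (isOpen_interior.inter isOpen_interior.inv) ⟨h1 n, by simpa using h1 n⟩ (hV n))⟩
      · exact Or.inr hx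
    · intro h U hU hx W hW h2 _
      obtain ⟨U', h3, h4, h5⟩ := (isBasis_countableBasis X).exists_subset_of_mem_open hx hU
      obtain ⟨n, hn⟩ := hs.mem_iff.1 (hW.mem_nhds h2)
      exact ⟨x, interior_mono (closure_mono (orb_mono h5
        (fun g hg => hn (interior_subset hg.1)) x)) ((h U' h3 n).resolve_right (not_not.2 h4)).2⟩
  rw [this]
  exact IsGδ.biInter (countable_countableBasis X) fun U hU => IsGδ.iInter fun n =>
    (gd_T (isOpen_of_mem_countableBasis hU) (hV n)).union
      (isOpen_of_mem_countableBasis hU).isClosed_compl.isGδ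

end Pool.Agent.Results.MP_6b7ad2_lc.Gdelta
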